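import Pool.Agent.Run7.h630.QW.Iface
import Pool.Agent.Run7.h377.QF.R2
import Pool.Agent.Run7.h771.QC.Loop

/-! Project QW (helper630), piece K1: the kernel of the torus. -/

set_option autoImplicit false
set_option linter.unusedSectionVars false
set_option linter.unusedVariables false

open MeasureTheory Matrix Filter Topology Finset
open scoped Matrix.Norms.Frobenius ComplexConjugate

namespace Pool.Agent.Run7.h885.QW

open Run7.h4.YM Run7.h630.WL Run7.h630.MQ Run7.h630.QC Run7.h630.ML Run7.h630.QF Run7.h630.QW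
open Run7.h377.QF

noncomputable section

/-! ### the chain -/

/-- the Green function of the chain, at an integer -/
def fo (ω : ℝ) (m : ℕ) (t : ℤ) : ℝ :=
  (Real.exp (-(ω * t)) + Real.exp (-(ω * (2 * m - t)))) /
    (2 * Real.sinh ω * (1 - Real.exp (-(2 * m * ω))))

/-- the Green function of the chain -/
def gc (ω : ℝ) (m : ℕ) (s : ZMod (2 * m)) : ℂ := (fo ω m (s.val : ℤ) : ℝ)

theorem fo_symm (ω : ℝ) (m : ℕ) (t : ℤ) : fo ω m (2 * m - t) = fo ω m t := by
  unfold fo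
  push_cast
  rw [show (2 * (m : ℝ) - (2 * m - t)) = t by ring, add_comm]

theorem gc_cast (ω : ℝ) (m : ℕ) [NeZero (2 * m)] (t : ℤ) (h0 : 0 ≤ t) (h1 : t ≤ 2 * m) :
    gc ω m (t : ZMod (2 * m)) = (fo ω m t : ℝ) := by
  unfold gc
  rcases h1.lt_or_eq with h | h
  · rw [ZMod.val_intCast, Int.emod_eq_of_lt h0 (by push_cast; exact h)]
  · have h2 : ((t : ℤ) : ZMod (2 * m)) = 0 := by
      rw [h]
      have := ZMod.natCast_self (2 * m)
      push_cast at this ⊢
      exact this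
    rw [h2, ZMod.val_zero, h]
    have h3 := fo_symm ω m 0
    rw [sub_zero] at h3
    rw [h3]
    simp

theorem fo_add (ω : ℝ) (m : ℕ) (t : ℤ) : fo ω m (t + 1) =
    (Real.exp (-ω) * Real.exp (-(ω * t)) + Real.exp ω * Real.exp (-(ω * (2 * m - t)))) /
    (2 * Real.sinh ω * (1 - Real.exp (-(2 * m * ω)))) := by
  unfold fo
  rw [← Real.exp_add, ← Real.exp_add]
  push_cast
  congr 3 <;> ring

theorem fo_sub (ω : ℝ) (m : ℕ) (t : ℤ) : fo ω m (t - 1) =
    (Real.exp ω * Real.exp (-(ω * t)) + Real.exp (-ω) * Real.exp (-(ω * (2 * m - t)))) /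
    (2 * Real.sinh ω * (1 - Real.exp (-(2 * m * ω)))) := by
  unfold fo
  rw [← Real.exp_add, ← Real.exp_add]
  push_cast
  congr 3 <;> ring

theorem D_ne {ω : ℝ} (hω : 0 < ω) (m : ℕ) [NeZero m] :
    2 * Real.sinh ω * (1 - Real.exp (-(2 * m * ω))) ≠ 0 := by
  have h1 : 0 < Real.sinh ω := Real.sinh_pos_iff.2 hω
  have hm : (0 : ℝ) < m := by exact_mod_cast NeZero.pos m
  have h2 : Real.exp (-(2 * m * ω)) < 1 := by
    have h4 : 0 < 2 * m * ω := by positivity
    have h5 : Real.exp (-(2 * m * ω)) < Real.exp 0 := Real.exp_lt_exp.2 (by linarith)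
    rwa [Real.exp_zero] at h5
  have h3 : 0 < 1 - Real.exp (-(2 * m * ω)) := by linarith
  positivity

/-- the equation of the chain -/
theorem gc_eq {ω A : ℝ} (hω : 0 < ω) (hA : Real.exp ω + Real.exp (-ω) = 2 + A) (m : ℕ) [NeZero m]
    [NeZero (2 * m)] (s : ZMod (2 * m)) :
    ((2 + A : ℝ) : ℂ) * gc ω m s - gc ω m (s + 1) - gc ω m (s - 1) = if s = 0 then 1 else 0 := by
  have hm : 0 < m := NeZero.pos m
  have hval : s.val < 2 * m := ZMod.val_lt s
  have hs : s = (((s.val : ℕ) : ℤ) : ZMod (2 * m)) := by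
    rw [Int.cast_natCast, ZMod.natCast_zmod_val]
  have hD := D_ne hω m
  by_cases h0 : s = 0
  · have e1 : gc ω m (s + 1) = (fo ω m 1 : ℝ) := by
      have h2 : s + 1 = ((1 : ℤ) : ZMod (2 * m)) := by rw [h0]; simp
      rw [h2]
      exact gc_cast ω m 1 (by norm_num) (by omega)
    have e2 : gc ω m (s - 1) = (fo ω m 1 : ℝ) := by
      have h2 : s - 1 = ((2 * m - 1 : ℤ) : ZMod (2 * m)) := by
        rw [h0]
        have := ZMod.natCast_self (2 * m)
        push_cast at this ⊢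
        rw [this]
      rw [h2, gc_cast ω m _ (by omega) (by omega)]
      congr 1
      exact fo_symm ω m 1
    have e3 : gc ω m s = (fo ω m 0 : ℝ) := by
      have h2 : s = ((0 : ℤ) : ZMod (2 * m)) := by rw [h0]; simp
      rw [h2]
      exact gc_cast ω m 0 le_rfl (by omega)
    rw [e1, e2, e3, if_pos h0, ← Complex.ofReal_mul, ← Complex.ofReal_sub, ← Complex.ofReal_sub]
    have e4 := fo_add ω m 0
    rw [zero_add] at e4
    rw [e4, ← hA]
    unfold fo
    rw [← Complex.ofReal_one]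
    congr 1
    rw [mul_div_assoc', div_sub_div_same, div_sub_div_same, div_eq_one_iff_eq hD]
    rw [Real.sinh_eq]
    have h5 : Real.exp (-(ω * (2 * m - ((0 : ℤ) : ℝ)))) = Real.exp (-(2 * m * ω)) := by
      congr 1
      push_cast
      ring
    have h6 : Real.exp (-(ω * ((0 : ℤ) : ℝ))) = 1 := by simp
    rw [h5, h6]
    ring
  · have hv : s.val ≠ 0 := fun h => h0 ((ZMod.val_eq_zero s).1 h)
    have e1 : gc ω m (s + 1) = (fo ω m ((s.val : ℤ) + 1) : ℝ) := by
      have h2 : s + 1 = (((s.val : ℤ) + 1 : ℤ) : ZMod (2 * m)) := by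
        rw [Int.cast_add, ← hs, Int.cast_one]
      rw [h2]
      exact gc_cast ω m _ (by omega) (by omega)
    have e2 : gc ω m (s - 1) = (fo ω m ((s.val : ℤ) - 1) : ℝ) := by
      have h2 : s - 1 = (((s.val : ℤ) - 1 : ℤ) : ZMod (2 * m)) := by
        rw [Int.cast_sub, ← hs, Int.cast_one]
      rw [h2]
      exact gc_cast ω m _ (by omega) (by omega)
    have e3 : gc ω m s = (fo ω m (s.val : ℤ) : ℝ) := rfl
    rw [e1, e2, e3, if_neg h0, ← Complex.ofReal_mul, ← Complex.ofReal_sub, ← Complex.ofReal_sub,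
      fo_add, fo_sub, ← hA]
    unfold fo
    rw [← Complex.ofReal_zero]
    congr 1
    rw [mul_div_assoc', div_sub_div_same, div_sub_div_same, div_eq_zero_iff]
    left
    ring

theorem ol_pos {A : ℝ} (hA : 0 < A) : 0 < ol A := by
  unfold ol
  have h1 : 0 < Real.sqrt A / 2 := by positivity
  have h2 := Real.arsinh_pos_iff.2 h1
  linarith

theorem ol_eq {A : ℝ} (hA : 0 ≤ A) : Real.exp (ol A) + Real.exp (-(ol A)) = 2 + A := by
  have h1 : Real.exp (ol A) + Real.exp (-(ol A)) = 2 * Real.cosh (ol A) := by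
    rw [Real.cosh_eq]
    ring
  rw [h1]
  unfold ol
  rw [Real.cosh_two_mul, Real.cosh_sq, Real.sinh_arsinh, div_pow, Real.sq_sqrt hA]
  ring

/-! ### the waves in the direction `1` -/

/-- the wave in the direction `1` -/
def ew (m : ℕ) (a : ℤ) (u : ZMod (2 * m)) : ℂ :=
  Complex.exp (Complex.I * ((Real.pi * a * u.val / m : ℝ) : ℂ))

theorem ew_cast (m : ℕ) [NeZero m] [NeZero (2 * m)] (a z : ℤ) :
    ew m a (z : ZMod (2 * m)) = Complex.exp (Complex.I * ((Real.pi * a * z / m : ℝ) : ℂ)) := by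
  have hm : (m : ℂ) ≠ 0 := by exact_mod_cast NeZero.ne m
  unfold ew
  have h1 : (((z : ZMod (2 * m)).val : ℕ) : ℤ) = z - (2 * m) * (z / (2 * m)) := by
    rw [ZMod.val_intCast]
    have := Int.mul_ediv_add_emod z (2 * m)
    push_cast
    linarith
  have h2 : (((z : ZMod (2 * m)).val : ℕ) : ℂ) = (z : ℂ) - (2 * m) * ((z / (2 * m) : ℤ) : ℂ) := by
    exact_mod_cast h1
  rw [Complex.exp_eq_exp_iff_exists_int]
  refine ⟨-(a * (z / (2 * m))), ?_⟩
  push_cast
  rw [h2]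
  field_simp
  ring

theorem ew_add (m : ℕ) [NeZero m] [NeZero (2 * m)] (a z : ℤ) (u : ZMod (2 * m)) :
    ew m a (u + (z : ZMod (2 * m))) =
      Complex.exp (Complex.I * ((Real.pi * a * z / m : ℝ) : ℂ)) * ew m a u := by
  have hu : u = ((u.val : ℤ) : ZMod (2 * m)) := by
    rw [Int.cast_natCast, ZMod.natCast_zmod_val]
  have h1 : u + (z : ZMod (2 * m)) = (((u.val : ℤ) + z : ℤ) : ZMod (2 * m)) := by
    rw [Int.cast_add, ← hu]
  rw [h1, ew_cast]
  unfold ew
  rw [← Complex.exp_add]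
  congr 1
  push_cast
  ring

/-! ### families of modes -/

variable {N k m l : ℕ}

/-- the function of the base point -/
def bs (m : ℕ) (a : ℤ) (v : ZMod (2 * m) × ZMod (2 * m)) (φ : ZMod (2 * m) → ℂ)
    (u : ZMod (2 * m) × ZMod (2 * m)) : ℂ := φ (u.1 - v.1) * ew m a (u.2 - v.2)

/-- the difference in the chain, or the symbol -/
def Nf (N k l m : ℕ) (a : ℤ) (ι : Ix N) (j : Fin 4) (φ : ZMod (2 * m) → ℂ) :
    ZMod (2 * m) → ℂ := fun s => if j = 0 then φ (s + 1) - φ s else fac N k l m 1 a ι j * φ s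

/-- the adjoint difference in the chain, or the symbol -/
def Ns (N k l m : ℕ) (a : ℤ) (ι : Ix N) (j : Fin 4) (φ : ZMod (2 * m) → ℂ) :
    ZMod (2 * m) → ℂ := fun s => if j = 0 then φ (s - 1) - φ s else fab N k l m 1 a ι j * φ s

theorem nb_bs [NeZero l] [NeZero m] [NeZero (2 * m)] (a : ℤ) (ι : Ix N)
    (v : ZMod (2 * m) × ZMod (2 * m)) (φ : ZMod (2 * m) → ℂ) (j : Fin 4) :
    (nb k ι.1 j (pw k ι (bs m a v φ)) : Site (2 * m) (2 * m) l → ℂ) =
      pw k ι (bs m a v (Nf N k l m a ι j φ)) := by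
  rw [nb_pw]
  congr 1
  funext u
  unfold bs Nf
  rcases fin4 j with rfl | rfl | rfl | rfl
  · have c0 : (d2 0 : ZMod (2 * m) × ZMod (2 * m)) = (1, 0) := rfl
    rw [c0, ee0, if_pos rfl]
    simp only [Prod.fst_add, Prod.snd_add, add_zero]
    rw [add_sub_right_comm]
    ring
  · have c0 : (d2 1 : ZMod (2 * m) × ZMod (2 * m)) = (0, 1) := rfl
    have h1 := ew_add m a 1 (u.2 - v.2)
    rw [Int.cast_one] at h1
    rw [c0, ee1, if_neg (by decide)]
    simp only [Prod.fst_add, Prod.snd_add, add_zero]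
    rw [add_sub_right_comm, h1]
    simp only [fac, Matrix.cons_val_one, Matrix.cons_val_zero, Int.cast_one, mul_one]
    ring
  · have c0 : (d2 2 : ZMod (2 * m) × ZMod (2 * m)) = 0 := rfl
    rw [c0, if_neg (by decide), add_zero]
    have h1 : fac N k l m 1 a ι 2 = ee N k l ι 2 - 1 := rfl
    rw [h1]
    ring
  · have c0 : (d2 3 : ZMod (2 * m) × ZMod (2 * m)) = 0 := rfl
    rw [c0, if_neg (by decide), add_zero]
    have h1 : fac N k l m 1 a ι 3 = ee N k l ι 3 - 1 := rfl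
    rw [h1]
    ring

theorem nbs_bs [NeZero l] [NeZero m] [NeZero (2 * m)] (a : ℤ) (ι : Ix N)
    (v : ZMod (2 * m) × ZMod (2 * m)) (φ : ZMod (2 * m) → ℂ) (j : Fin 4) :
    (nbs k ι.1 j (pw k ι (bs m a v φ)) : Site (2 * m) (2 * m) l → ℂ) =
      pw k ι (bs m a v (Ns N k l m a ι j φ)) := by
  rw [nbs_pw]
  congr 1
  funext u
  unfold bs Ns
  rcases fin4 j with rfl | rfl | rfl | rfl
  · have c0 : (d2 0 : ZMod (2 * m) × ZMod (2 * m)) = (1, 0) := rfl
    rw [c0, ee0, if_pos rfl, map_one]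
    simp only [Prod.fst_sub, Prod.snd_sub, sub_zero]
    rw [sub_right_comm]
    ring
  · have c0 : (d2 1 : ZMod (2 * m) × ZMod (2 * m)) = (0, 1) := rfl
    have h1 := ew_add m a (-1) (u.2 - v.2)
    rw [Int.cast_neg, Int.cast_one, ← sub_eq_add_neg] at h1
    rw [c0, ee1, if_neg (by decide), map_one]
    simp only [Prod.fst_sub, Prod.snd_sub, sub_zero]
    rw [sub_right_comm, h1]
    have h2 : fab N k l m 1 a ι 1 = Complex.exp (-(Complex.I * ((Real.pi * a / m : ℝ) : ℂ))) - 1 := rfl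
    have h3 : Complex.I * ((Real.pi * a * ((-1 : ℤ) : ℝ) / m : ℝ) : ℂ) =
        -(Complex.I * ((Real.pi * a / m : ℝ) : ℂ)) := by
      push_cast
      ring
    rw [h2, h3]
    ring
  · have c0 : (d2 2 : ZMod (2 * m) × ZMod (2 * m)) = 0 := rfl
    rw [c0, if_neg (by decide), sub_zero]
    have h1 : fab N k l m 1 a ι 2 = conj (ee N k l ι 2) - 1 := by
      rw [ee_conj]
      rfl
    rw [h1]
    ring
  · have c0 : (d2 3 : ZMod (2 * m) × ZMod (2 * m)) = 0 := rfl
    rw [c0, if_neg (by decide), sub_zero]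
    have h1 : fab N k l m 1 a ι 3 = conj (ee N k l ι 3) - 1 := by
      rw [ee_conj]
      rfl
    rw [h1]
    ring

theorem KC_bs [NeZero m] [NeZero (2 * m)] (a : ℤ) (ι : Ix N)
    (v : ZMod (2 * m) × ZMod (2 * m)) (φ : ZMod (2 * m) → ℂ) :
    KC (xm N k l ι) (bs m a v φ) = bs m a v (fun s =>
      ((2 + Al N k l m a ι : ℝ) : ℂ) * φ s - φ (s + 1) - φ (s - 1)) := by
  funext u
  unfold KC bs
  simp only [Prod.fst_sub, Prod.snd_sub, Prod.fst_add, Prod.snd_add, sub_zero, add_zero]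
  rw [add_sub_right_comm u.1, sub_right_comm u.1, add_sub_right_comm u.2, sub_right_comm u.2]
  have h1 := ew_add m a 1 (u.2 - v.2)
  rw [Int.cast_one] at h1
  have h2 := ew_add m a (-1) (u.2 - v.2)
  rw [Int.cast_neg, Int.cast_one, ← sub_eq_add_neg] at h2
  rw [h1, h2]
  have h3 : Complex.I * ((Real.pi * a * ((-1 : ℤ) : ℝ) / m : ℝ) : ℂ) =
      -((Real.pi * a / m : ℝ) : ℂ) * Complex.I := by
    push_cast
    ring
  have h4 : Complex.I * ((Real.pi * a * ((1 : ℤ) : ℝ) / m : ℝ) : ℂ) =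
      ((Real.pi * a / m : ℝ) : ℂ) * Complex.I := by
    push_cast
    ring
  have h5 : ((2 + Al N k l m a ι : ℝ) : ℂ) = 4 + ((xm N k l ι : ℝ) : ℂ) -
      (Complex.exp (((Real.pi * a / m : ℝ) : ℂ) * Complex.I) +
        Complex.exp (-((Real.pi * a / m : ℝ) : ℂ) * Complex.I)) := by
    unfold Al
    rw [← Complex.two_cos]
    push_cast
    ring
  rw [h3, h4, h5]
  ring

/-- a family of modes -/
def fam (N k m l : ℕ) (α : Col N) (v : ZMod (2 * m) × ZMod (2 * m)) (q : ZMod l × ZMod l)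
    (Φ : ℤ × ℤ × ℤ → ZMod (2 * m) → ℂ) : Site (2 * m) (2 * m) l → ℂ :=
  ∑ p ∈ Finset.Ico (-(m : ℤ)) m ×ˢ Wi l,
    (((2 * m * l ^ 2 : ℝ) : ℂ)⁻¹ * conj (wave N k l (α, p.2) q)) •
      pw k (α, p.2) (bs m p.1 v (Φ p))

theorem nb_fam [NeZero l] [NeZero m] [NeZero (2 * m)] (α : Col N)
    (v : ZMod (2 * m) × ZMod (2 * m)) (q : ZMod l × ZMod l)
    (Φ : ℤ × ℤ × ℤ → ZMod (2 * m) → ℂ) (j : Fin 4) :
    nb k α j (fam N k m l α v q Φ) =
      fam N k m l α v q (fun p => Nf N k l m p.1 (α, p.2) j (Φ p)) := by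
  show Run7.h771.QC.nbL (2 * m) (2 * m) l k α j (fam N k m l α v q Φ) = _
  unfold fam
  rw [map_sum]
  refine Finset.sum_congr rfl fun p _ => ?_
  rw [map_smul]
  congr 1
  exact nb_bs p.1 (α, p.2) v (Φ p) j

theorem nbs_fam [NeZero l] [NeZero m] [NeZero (2 * m)] (α : Col N)
    (v : ZMod (2 * m) × ZMod (2 * m)) (q : ZMod l × ZMod l)
    (Φ : ℤ × ℤ × ℤ → ZMod (2 * m) → ℂ) (j : Fin 4) :
    nbs k α j (fam N k m l α v q Φ) =
      fam N k m l α v q (fun p => Ns N k l m p.1 (α, p.2) j (Φ p)) := by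
  show Run7.h771.QC.nbsL (2 * m) (2 * m) l k α j (fam N k m l α v q Φ) = _
  unfold fam
  rw [map_sum]
  refine Finset.sum_congr rfl fun p _ => ?_
  rw [map_smul]
  congr 1
  exact nbs_bs p.1 (α, p.2) v (Φ p) j

theorem La_fam [NeZero l] [NeZero m] [NeZero (2 * m)] (α : Col N)
    (v : ZMod (2 * m) × ZMod (2 * m)) (q : ZMod l × ZMod l)
    (Φ : ℤ × ℤ × ℤ → ZMod (2 * m) → ℂ) :
    La (2 * m) (2 * m) l k α (fam N k m l α v q Φ) =
      fam N k m l α v q (fun p s =>
        ((2 + Al N k l m p.1 (α, p.2) : ℝ) : ℂ) * Φ p s - Φ p (s + 1) - Φ p (s - 1)) := by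
  unfold fam
  rw [map_sum]
  refine Finset.sum_congr rfl fun p _ => ?_
  rw [map_smul]
  congr 1
  rw [← KC_bs]
  exact La_pw k (α, p.2) _

/-- the sum over a window -/
theorem win (M : ℕ) (s : ℤ) (z : ℂ) (hz : z ^ M = 1) (h0 : z ≠ 0) :
    ∑ a ∈ Finset.Ico s (s + M), z ^ a = if z = 1 then (M : ℂ) else 0 := by
  have h1 : ∑ a ∈ Finset.Ico s (s + M), z ^ a = ∑ i ∈ Finset.range M, z ^ s * z ^ i := by
    refine (Finset.sum_nbij' (fun i : ℕ => s + (i : ℤ)) (fun a : ℤ => (a - s).toNat)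
      ?_ ?_ ?_ ?_ ?_).symm
    · intro i hi
      rw [Finset.mem_range] at hi
      rw [Finset.mem_Ico]
      omega
    · intro a ha
      rw [Finset.mem_Ico] at ha
      rw [Finset.mem_range]
      omega
    · intro i hi
      simp
    · intro a ha
      rw [Finset.mem_Ico] at ha
      omega
    · intro i hi
      rw [zpow_add₀ h0, zpow_natCast]
  rw [h1, ← Finset.mul_sum]
  split_ifs with h
  · simp [h]
  · rw [geom_sum_eq h, hz, sub_self, zero_div, mul_zero]

/-- the sum of the waves over a window -/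
theorem win_exp (M : ℕ) [NeZero M] (s : ℤ) (κ : ℝ) (Y : ℤ) (hY : |Y| < M) :
    ∑ a ∈ Finset.Ico s (s + M), Complex.exp (Complex.I * ((2 * Real.pi * (a + κ) * Y / M : ℝ) : ℂ)) =
      if Y = 0 then (M : ℂ) else 0 := by
  have hM : (M : ℂ) ≠ 0 := by exact_mod_cast NeZero.ne M
  set z : ℂ := Complex.exp (2 * Real.pi * Complex.I * Y / M) with hz
  have hz0 : z ≠ 0 := Complex.exp_ne_zero _
  have hzM : z ^ M = 1 := by
    rw [hz, ← Complex.exp_nat_mul, mul_div_cancel₀ _ hM, mul_comm]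
    exact Complex.exp_int_mul_two_pi_mul_I Y
  have h1 : ∀ a ∈ Finset.Ico s (s + M),
      Complex.exp (Complex.I * ((2 * Real.pi * (a + κ) * Y / M : ℝ) : ℂ)) =
      Complex.exp (Complex.I * ((2 * Real.pi * κ * Y / M : ℝ) : ℂ)) * z ^ a := by
    intro a _
    rw [hz, ← Complex.exp_int_mul, ← Complex.exp_add]
    congr 1
    push_cast
    ring
  rw [Finset.sum_congr rfl h1, ← Finset.mul_sum, win M s z hzM hz0]
  by_cases hY0 : Y = 0
  · have h2 : z = 1 := by rw [hz, hY0]; simp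
    rw [if_pos h2, if_pos hY0, hY0]
    simp
  · have h2 : z ≠ 1 := by
      intro h
      rw [hz, Complex.exp_eq_one_iff] at h
      obtain ⟨n, hn⟩ := h
      have h3 : (Y : ℂ) = n * M := by
        have h4 : (2 * Real.pi * Complex.I : ℂ) ≠ 0 := Complex.two_pi_I_ne_zero
        rw [div_eq_iff hM] at hn
        have h5 : (2 * Real.pi * Complex.I : ℂ) * Y = (2 * Real.pi * Complex.I : ℂ) * (n * M) := by
          rw [hn]
          ring
        exact mul_left_cancel₀ h4 h5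
      have h6 : Y = n * M := by exact_mod_cast h3
      have h7 : n = 0 := by
        by_contra hn0
        have h8 : 1 ≤ |n| := Int.one_le_abs hn0
        rw [h6, abs_mul, Nat.abs_cast] at hY
        nlinarith
      exact hY0 (by rw [h6, h7, zero_mul])
    rw [if_neg h2, if_neg hY0, mul_zero]

theorem comp (N k m l : ℕ) [NeZero N] [NeZero m] [NeZero (2 * m)] [NeZero l] (α : Col N)
    (u : ZMod (2 * m)) (p q : ZMod l × ZMod l) :
    ∑ a ∈ Finset.Ico (-(m : ℤ)) m, ∑ c ∈ Wi l,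
    Complex.exp (Complex.I * ((Real.pi * a * u.val / m : ℝ) : ℂ)) *
      (wave N k l (α, c) p * conj (wave N k l (α, c) q)) =
    if u = 0 ∧ p = q then ((2 * m * l ^ 2 : ℝ) : ℂ) else 0 := by
  have hm : (m : ℝ) ≠ 0 := by exact_mod_cast NeZero.ne m
  have hl : (l : ℝ) ≠ 0 := by exact_mod_cast NeZero.ne l
  have hN : (N : ℝ) ≠ 0 := by exact_mod_cast NeZero.ne N
  set Y : ℤ := ((p.1 - 1).val : ℤ) - ((q.1 - 1).val : ℤ) with hY
  set Y' : ℤ := ((p.2 - 1).val : ℤ) - ((q.2 - 1).val : ℤ) with hY'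
  have a1 : |Y| < l := by
    have := ZMod.val_lt (p.1 - 1)
    have := ZMod.val_lt (q.1 - 1)
    rw [abs_lt]
    omega
  have a2 : |Y'| < l := by
    have := ZMod.val_lt (p.2 - 1)
    have := ZMod.val_lt (q.2 - 1)
    rw [abs_lt]
    omega
  have z1 : Y = 0 ↔ p.1 = q.1 := by
    constructor
    · intro h
      have h1 : (p.1 - 1).val = (q.1 - 1).val := by omega
      have h2 := ZMod.val_injective l h1
      exact sub_left_inj.1 h2
    · intro h
      rw [hY, h, sub_self]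
  have z2 : Y' = 0 ↔ p.2 = q.2 := by
    constructor
    · intro h
      have h1 : (p.2 - 1).val = (q.2 - 1).val := by omega
      have h2 := ZMod.val_injective l h1
      exact sub_left_inj.1 h2
    · intro h
      rw [hY', h, sub_self]
  have hw : ∀ c : ℤ × ℤ, wave N k l (α, c) p * conj (wave N k l (α, c) q) =
      Complex.exp (Complex.I * ((2 * Real.pi * (c.1 + (-(k * ((α.2 : ℕ) : ℝ) / N))) * Y / l : ℝ) : ℂ)) *
      Complex.exp (Complex.I * ((2 * Real.pi * (c.2 + k * ((α.1 : ℕ) : ℝ) / N) * Y' / l : ℝ) : ℂ)) := by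
    intro c
    unfold wave
    rw [← Complex.exp_conj, map_mul, Complex.conj_I, Complex.conj_ofReal, ← Complex.exp_add,
      ← Complex.exp_add]
    congr 1
    have e2 : mom N k (α, c) 2 = 2 * Real.pi * (c.1 - k * ((α.2 : ℕ) : ℝ) / N) := rfl
    have e3 : mom N k (α, c) 3 = 2 * Real.pi * (c.2 + k * ((α.1 : ℕ) : ℝ) / N) := rfl
    rw [e2, e3, hY, hY']
    push_cast
    ring
  have hs : ∑ c ∈ Wi l, wave N k l (α, c) p * conj (wave N k l (α, c) q) =
      (if Y = 0 then (l : ℂ) else 0) * (if Y' = 0 then (l : ℂ) else 0) := by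
    rw [Finset.sum_congr rfl fun c _ => hw c]
    unfold Wi
    rw [Finset.sum_product, ← win_exp l (-((l / 2 : ℕ) : ℤ)) (-(k * ((α.2 : ℕ) : ℝ) / N)) Y a1,
      ← win_exp l (-((l / 2 : ℕ) : ℤ)) (k * ((α.1 : ℕ) : ℝ) / N) Y' a2, Finset.sum_mul_sum]
  have ha : ∑ a ∈ Finset.Ico (-(m : ℤ)) m,
      Complex.exp (Complex.I * ((Real.pi * a * u.val / m : ℝ) : ℂ)) =
      if u = 0 then ((2 * m : ℕ) : ℂ) else 0 := by
    have h1 : Finset.Ico (-(m : ℤ)) m = Finset.Ico (-(m : ℤ)) (-(m : ℤ) + ((2 * m : ℕ) : ℤ)) := by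
      congr 1
      push_cast
      ring
    have hu : |(u.val : ℤ)| < ((2 * m : ℕ) : ℤ) := by
      rw [Nat.abs_cast]
      exact_mod_cast ZMod.val_lt u
    have h2 := win_exp (2 * m) (-(m : ℤ)) 0 (u.val : ℤ) hu
    rw [h1]
    have h3 : ((u.val : ℤ) = 0) = (u = 0) := by
      rw [eq_iff_iff]
      constructor
      · intro h
        exact (ZMod.val_eq_zero u).1 (by exact_mod_cast h)
      · intro h
        rw [h]
        simp
    rw [← if_congr (iff_of_eq h3) rfl rfl, ← h2]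
    refine Finset.sum_congr rfl fun a _ => ?_
    congr 2
    push_cast
    field_simp
    try ring
  simp only [← Finset.mul_sum]
  rw [hs, ← Finset.sum_mul, ha]
  by_cases hu : u = 0
  · by_cases h1 : p.1 = q.1
    · by_cases h2 : p.2 = q.2
      · rw [if_pos hu, if_pos (z1.2 h1), if_pos (z2.2 h2),
          if_pos (⟨hu, Prod.ext h1 h2⟩ : u = 0 ∧ p = q)]
        push_cast
        ring
      · rw [if_neg (fun h => h2 (z2.1 h) : ¬ Y' = 0),
          if_neg (fun h => h2 (by rw [h.2]) : ¬ (u = 0 ∧ p = q))]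
        ring
    · rw [if_neg (fun h => h1 (z1.1 h) : ¬ Y = 0),
        if_neg (fun h => h1 (by rw [h.2]) : ¬ (u = 0 ∧ p = q))]
      ring
  · rw [if_neg hu, if_neg (fun h => hu h.1 : ¬ (u = 0 ∧ p = q))]
    ring

theorem fam_delta [NeZero N] [NeZero l] [NeZero m] [NeZero (2 * m)] (α : Col N)
    (y : Site (2 * m) (2 * m) l) :
    fam N k m l α (y.1, y.2.1) y.2.2 (fun _ s => if s = 0 then 1 else 0) =
      fun x => if x = y then 1 else 0 := by
  funext x
  unfold fam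
  rw [Finset.sum_apply, Finset.sum_product]
  have hne : ((2 * m * l ^ 2 : ℝ) : ℂ) ≠ 0 := by
    have h1 : (m : ℝ) ≠ 0 := by exact_mod_cast NeZero.ne m
    have h2 : (l : ℝ) ≠ 0 := by exact_mod_cast NeZero.ne l
    rw [Complex.ofReal_ne_zero]
    positivity
  have h := comp N k m l α (x.2.1 - y.2.1) x.2.2 y.2.2
  have h1 : ∀ a ∈ Finset.Ico (-(m : ℤ)) m, ∀ c ∈ Wi l,
      ((((2 * m * l ^ 2 : ℝ) : ℂ)⁻¹ * conj (wave N k l (α, c) y.2.2)) •
        pw k (α, c) (bs m a (y.1, y.2.1) (fun s => if s = 0 then 1 else 0))) x =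
      ((2 * m * l ^ 2 : ℝ) : ℂ)⁻¹ * (if x.1 - y.1 = 0 then 1 else 0) *
        (Complex.exp (Complex.I * ((Real.pi * a * (x.2.1 - y.2.1).val / m : ℝ) : ℂ)) *
      (wave N k l (α, c) x.2.2 * conj (wave N k l (α, c) y.2.2))) := by
    intro a _ c _
    rw [Pi.smul_apply, smul_eq_mul]
    unfold pw bs ew
    ring
  rw [Finset.sum_congr rfl fun a ha => Finset.sum_congr rfl (h1 a ha)]
  simp only [← Finset.mul_sum] at h ⊢
  rw [h]
  by_cases hxy : x = y
  · subst hxy
    rw [if_pos (sub_self _), if_pos ⟨sub_self _, rfl⟩, if_pos rfl, mul_one,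
      inv_mul_cancel₀ hne]
  · rw [if_neg hxy]
    by_cases h0 : x.1 - y.1 = 0
    · have h5 : ¬ (x.2.1 - y.2.1 = 0 ∧ x.2.2 = y.2.2) := fun h34 =>
        hxy (Prod.ext (sub_eq_zero.1 h0) (Prod.ext (sub_eq_zero.1 h34.1) h34.2))
      rw [if_neg h5]
      ring
    · rw [if_neg h0]
      ring

theorem Al_pos [NeZero N] [NeZero l] {a : ℤ} {ι : Ix N} (hk : Nat.Coprime k N)
    (hι : ι.1 ≠ (0, 0)) : 0 < Al N k l m a ι := by
  have hl : (0 : ℝ) < l := by exact_mod_cast NeZero.pos l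
  have hN : (N : ℝ) ≠ 0 := by exact_mod_cast NeZero.ne N
  have hpi := Real.pi_pos
  have c1 := Real.cos_le_one (Real.pi * a / m)
  have c2 := Real.cos_le_one (mom N k ι 2 / l)
  have c3 := Real.cos_le_one (mom N k ι 3 / l)
  have key : ∀ (c : Fin N) (z : ℤ), (z : ℝ) * N = k * ((c : ℕ) : ℝ) → (c : ℕ) = 0 := by
    intro c z h
    have h1 : z * (N : ℤ) = k * ((c : ℕ) : ℤ) := by exact_mod_cast h
    have h2 : (N : ℤ) ∣ (k : ℤ) * ((c : ℕ) : ℤ) := ⟨z, by rw [← h1]; ring⟩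
    have h3 : N ∣ k * (c : ℕ) := by exact_mod_cast h2
    have h4 : N ∣ (c : ℕ) := (Nat.Coprime.symm hk).dvd_of_dvd_mul_left h3
    exact Nat.eq_zero_of_dvd_of_lt h4 c.2
  by_contra hcon
  unfold Al xm at hcon
  have e2 : Real.cos (mom N k ι 2 / l) = 1 := by linarith
  have e3 : Real.cos (mom N k ι 3 / l) = 1 := by linarith
  rw [Real.cos_eq_one_iff] at e2 e3
  obtain ⟨n2, e2⟩ := e2
  obtain ⟨n3, e3⟩ := e3
  rw [eq_div_iff hl.ne'] at e2 e3
  rw [mom2] at e2
  rw [mom3] at e3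
  have f2 : (n2 : ℝ) * l = ι.2.1 - k * ((ι.1.2 : ℕ) : ℝ) / N := by
    have : 2 * Real.pi * ((n2 : ℝ) * l) = 2 * Real.pi * (ι.2.1 - k * ((ι.1.2 : ℕ) : ℝ) / N) := by
      rw [← e2]
      ring
    exact mul_left_cancel₀ (by positivity) this
  have f3 : (n3 : ℝ) * l = ι.2.2 + k * ((ι.1.1 : ℕ) : ℝ) / N := by
    have : 2 * Real.pi * ((n3 : ℝ) * l) = 2 * Real.pi * (ι.2.2 + k * ((ι.1.1 : ℕ) : ℝ) / N) := by
      rw [← e3]
      ring
    exact mul_left_cancel₀ (by positivity) this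
  apply hι
  refine Prod.ext (Fin.ext ?_) (Fin.ext ?_)
  · have h4 : (ι.1.1 : ℕ) = 0 := by
      refine key ι.1.1 (n3 * l - ι.2.2) ?_
      field_simp at f3
      push_cast
      linarith
    rw [h4]
    simp
  · have h4 : (ι.1.2 : ℕ) = 0 := by
      refine key ι.1.2 (ι.2.1 - n2 * l) ?_
      field_simp at f2
      push_cast
      linarith
    rw [h4]
    simp

/-- the Green function -/
theorem Gr_delta [NeZero N] [NeZero l] [NeZero m] [NeZero (2 * m)]
    (hk : Nat.Coprime k N) (α : Col N) (hα : α ≠ (0, 0)) (y : Site (2 * m) (2 * m) l) :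
    Gr (2 * m) (2 * m) l k α (fun x => if x = y then 1 else 0) =
      fam N k m l α (y.1, y.2.1) y.2.2 (fun p => gc (ol (Al N k l m p.1 (α, p.2))) m) := by
  obtain ⟨C, hC0, hQ⟩ := Run7.h270.QC.t_Q5a N
  obtain ⟨h1, h2, h3⟩ := hQ (2 * m) (2 * m) l k hk α hα
  rw [← fam_delta α y]
  rw [← h2 (fam N k m l α (y.1, y.2.1) y.2.2 (fun p => gc (ol (Al N k l m p.1 (α, p.2))) m))]
  congr 1
  rw [La_fam]
  congr 1
  funext p s
  have hA : 0 < Al N k l m p.1 (α, p.2) := Al_pos hk hα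
  exact (gc_eq (ol_pos hA) (ol_eq hA.le) m s).symm

/-- the value of the double difference -/
theorem NN_val [NeZero m] [NeZero (2 * m)] (a : ℤ) (ι : Ix N) (i i' : Fin 4) (t : ℤ)
    (h1 : 1 ≤ t) (h2 : t ≤ 2 * m - 1) :
    Nf N k l m a ι i (Ns N k l m a ι i' (gc (ol (Al N k l m a ι)) m)) (t : ZMod (2 * m)) =
      (((Real.exp (-(ol (Al N k l m a ι) * t)) : ℝ) : ℂ) *
        (fac N k l m 1 a ι i * fab N k l m 1 a ι i') +
      ((Real.exp (-(ol (Al N k l m a ι) * (2 * m - t))) : ℝ) : ℂ) *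
        (fac N k l m (-1) a ι i * fab N k l m (-1) a ι i')) /
      ((2 * Real.sinh (ol (Al N k l m a ι)) *
        (1 - Real.exp (-(2 * m * ol (Al N k l m a ι)))) : ℝ) : ℂ) := by
  set ω := ol (Al N k l m a ι) with hω
  have g0 := gc_cast ω m t (by omega) (by omega)
  have g1 : gc ω m ((t : ZMod (2 * m)) + 1) = (fo ω m (t + 1) : ℝ) := by
    have := gc_cast ω m (t + 1) (by omega) (by omega)
    rwa [Int.cast_add, Int.cast_one] at this
  have g2 : gc ω m ((t : ZMod (2 * m)) - 1) = (fo ω m (t - 1) : ℝ) := by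
    have := gc_cast ω m (t - 1) (by omega) (by omega)
    rwa [Int.cast_sub, Int.cast_one] at this
  have hu : Real.exp ω * Real.exp (-ω) = 1 := by
    rw [← Real.exp_add, add_neg_cancel, Real.exp_zero]
  have huC : ((Real.exp ω : ℝ) : ℂ) * ((Real.exp (-ω) : ℝ) : ℂ) = 1 := by
    rw [← Complex.ofReal_mul, hu, Complex.ofReal_one]
  have hf1 : fac N k l m 1 a ι 0 = ((Real.exp (-ω) : ℝ) : ℂ) - 1 := by
    show ((Real.exp (-(1 * ol (Al N k l m a ι))) - 1 : ℝ) : ℂ) = _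
    rw [one_mul, ← hω]
    push_cast
    rfl
  have hf2 : fac N k l m (-1) a ι 0 = ((Real.exp ω : ℝ) : ℂ) - 1 := by
    show ((Real.exp (-(-1 * ol (Al N k l m a ι))) - 1 : ℝ) : ℂ) = _
    rw [neg_one_mul, neg_neg, ← hω]
    push_cast
    rfl
  have hb1 : fab N k l m 1 a ι 0 = ((Real.exp ω : ℝ) : ℂ) - 1 := by
    show ((Real.exp (1 * ol (Al N k l m a ι)) - 1 : ℝ) : ℂ) = _
    rw [one_mul, ← hω]
    push_cast
    rfl
  have hb2 : fab N k l m (-1) a ι 0 = ((Real.exp (-ω) : ℝ) : ℂ) - 1 := by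
    show ((Real.exp (-1 * ol (Al N k l m a ι)) - 1 : ℝ) : ℂ) = _
    rw [neg_one_mul, ← hω]
    push_cast
    rfl
  have hfs : ∀ j : Fin 4, j ≠ 0 → fac N k l m (-1) a ι j = fac N k l m 1 a ι j := by
    intro j hj
    rcases fin4 j with rfl | rfl | rfl | rfl
    · exact absurd rfl hj
    all_goals rfl
  have hbs : ∀ j : Fin 4, j ≠ 0 → fab N k l m (-1) a ι j = fab N k l m 1 a ι j := by
    intro j hj
    rcases fin4 j with rfl | rfl | rfl | rfl
    · exact absurd rfl hj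
    all_goals rfl
  have p0 : ((fo ω m t : ℝ) : ℂ) = (((Real.exp (-(ω * t)) : ℝ) : ℂ) +
      ((Real.exp (-(ω * (2 * m - t))) : ℝ) : ℂ)) /
      ((2 * Real.sinh ω * (1 - Real.exp (-(2 * m * ω))) : ℝ) : ℂ) := by
    unfold fo
    rw [Complex.ofReal_div, Complex.ofReal_add]
  have p1 : ((fo ω m (t + 1) : ℝ) : ℂ) = (((Real.exp (-ω) : ℝ) : ℂ) * ((Real.exp (-(ω * t)) : ℝ) : ℂ) +
      ((Real.exp ω : ℝ) : ℂ) * ((Real.exp (-(ω * (2 * m - t))) : ℝ) : ℂ)) /
      ((2 * Real.sinh ω * (1 - Real.exp (-(2 * m * ω))) : ℝ) : ℂ) := by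
    rw [fo_add, Complex.ofReal_div, Complex.ofReal_add, Complex.ofReal_mul, Complex.ofReal_mul]
  have p2 : ((fo ω m (t - 1) : ℝ) : ℂ) = (((Real.exp ω : ℝ) : ℂ) * ((Real.exp (-(ω * t)) : ℝ) : ℂ) +
      ((Real.exp (-ω) : ℝ) : ℂ) * ((Real.exp (-(ω * (2 * m - t))) : ℝ) : ℂ)) /
      ((2 * Real.sinh ω * (1 - Real.exp (-(2 * m * ω))) : ℝ) : ℂ) := by
    rw [fo_sub, Complex.ofReal_div, Complex.ofReal_add, Complex.ofReal_mul, Complex.ofReal_mul]
  generalize ((2 * Real.sinh ω * (1 - Real.exp (-(2 * m * ω))) : ℝ) : ℂ) = D at *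
  generalize ((Real.exp (-(ω * t)) : ℝ) : ℂ) = E1 at *
  generalize ((Real.exp (-(ω * (2 * m - t))) : ℝ) : ℂ) = E2 at *
  generalize ((Real.exp ω : ℝ) : ℂ) = r' at *
  generalize ((Real.exp (-ω) : ℝ) : ℂ) = r at *
  unfold Nf Ns
  by_cases hi : i = 0
  · subst hi
    by_cases hi' : i' = 0
    · subst hi'
      simp only [if_true]
      rw [add_sub_cancel_right, g0, g1, g2, p0, p1, p2, hf1, hf2, hb1, hb2]
      linear_combination ((E1 + E2) / D) * (-huC)
    · simp only [if_true, if_neg hi']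
      rw [g0, g1, p0, p1, hf1, hf2, hbs i' hi']
      ring
  · by_cases hi' : i' = 0
    · subst hi'
      simp only [if_true, if_neg hi]
      rw [g0, g2, p0, p2, hb1, hb2, hfs i hi]
      ring
    · simp only [if_neg hi, if_neg hi']
      rw [g0, p0, hfs i hi, hbs i' hi']
      ring

/-- the divergence of the two-form of a point -/
theorem dl_sum (α : Col N) {i' j' : Fin 4} (hij : i' ≠ j') (j : Fin 4)
    (y : Site (2 * m) (2 * m) l) :
    (fun x => ∑ a : Fin 4, nbs k α a (dl i' j' y a j) x) =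
      (if j = j' then nbs k α i' (fun x => if x = y then 1 else 0) else 0) -
        (if j = i' then nbs k α j' (fun x => if x = y then 1 else 0) else 0) := by
  funext x
  have h1 : ∀ a : Fin 4, nbs k α a (dl i' j' y a j) x =
      (if a = i' ∧ j = j' then 1 else if a = j' ∧ j = i' then -1 else 0) *
        nbs k α a (fun x => if x = y then 1 else 0) x := by
    intro a
    simp only [nbs, dl]
    split_ifs <;> ring
  simp only [h1, Pi.sub_apply]
  by_cases hj : j = j'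
  · subst hj
    have hj2 : ¬ j = i' := fun h => hij h.symm
    simp only [eq_self_iff_true, hj2, and_false, if_false, and_true, if_true, Pi.zero_apply,
      sub_zero]
    rw [Finset.sum_eq_single i']
    · rw [if_pos rfl, one_mul]
    · intro a _ ha
      rw [if_neg ha, zero_mul]
    · intro h
      exact absurd (Finset.mem_univ _) h
  · by_cases hj2 : j = i'
    · subst hj2
      simp only [eq_self_iff_true, hj, and_false, if_false, and_true, if_true, Pi.zero_apply,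
        zero_sub]
      rw [Finset.sum_eq_single j']
      · rw [if_pos rfl, neg_one_mul]
      · intro a _ ha
        rw [if_neg ha, zero_mul]
      · intro h
        exact absurd (Finset.mem_univ _) h
    · simp [hj, hj2]

theorem pot_dl [NeZero N] [NeZero l] [NeZero m] [NeZero (2 * m)]
    (hk : Nat.Coprime k N) (α : Col N) (hα : α ≠ (0, 0)) {i' j' : Fin 4} (hij : i' ≠ j')
    (j : Fin 4) (y : Site (2 * m) (2 * m) l) :
    pot k α (dl i' j' y) j =
      (if j = j' then nbs k α i' (Gr (2 * m) (2 * m) l k α (fun x => if x = y then 1 else 0)) else 0) -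
        (if j = i' then nbs k α j' (Gr (2 * m) (2 * m) l k α (fun x => if x = y then 1 else 0))
          else 0) := by
  unfold pot
  rw [dl_sum α hij j y, map_sub]
  congr 1
  · split_ifs
    · exact Run7.h771.QC.Gr_nbs k α i' _
    · exact map_zero _
  · split_ifs
    · exact Run7.h771.QC.Gr_nbs k α j' _
    · exact map_zero _

theorem kr_eq [NeZero N] [NeZero l] [NeZero m] [NeZero (2 * m)]
    (hk : Nat.Coprime k N) (α : Col N) (hα : α ≠ (0, 0)) {i' j' : Fin 4} (hij : i' ≠ j')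
    (i j : Fin 4) (x y : Site (2 * m) (2 * m) l) (V : Fin 4 → Fin 4 → ℂ)
    (hV : ∀ i i', V i i' = nb k α i (nbs k α i' (Gr (2 * m) (2 * m) l k α
      (fun x => if x = y then 1 else 0))) x) :
    kr k α i j i' j' x y = (if j = j' then V i i' else 0) - (if j = i' then V i j' else 0) -
      (if i = j' then V j i' else 0) + (if i = i' then V j j' else 0) := by
  unfold kr
  rw [pot_dl hk α hα hij j y, pot_dl hk α hα hij i y]
  have hs : ∀ (a : Fin 4) (f g : Site (2 * m) (2 * m) l → ℂ),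
      nb k α a (f - g) x = nb k α a f x - nb k α a g x := by
    intro a f g
    unfold nb
    simp only [Pi.sub_apply]
    ring
  have h0 : ∀ (a : Fin 4) (P : Prop) [Decidable P] (f : Site (2 * m) (2 * m) l → ℂ),
      nb k α a (if P then f else 0) x = if P then nb k α a f x else 0 := by
    intro a P _ f
    split_ifs
    · rfl
    · unfold nb
      simp
  rw [hs, hs, h0, h0, h0, h0, hV, hV, hV, hV]
  ring

theorem K1 (N k m l : ℕ) [NeZero N] [NeZero m] [NeZero (2 * m)] [NeZero l]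
    (hk : Nat.Coprime k N) (α : Col N) (hα : α ≠ (0, 0)) (i j i' j' : Fin 4) (hij : i' ≠ j')
    (x y : SiteZ l) (h1 : 1 ≤ x.1 - y.1) (h2 : x.1 - y.1 ≤ 2 * m - 1) :
    kr k α i j i' j' (prj m x) (prj m y) =
      LS N k l m α i j i' j' (x.1 - y.1) (x.2.1 - y.2.1)
        (((x.2.2.1 - 1).val : ℤ) - ((y.2.2.1 - 1).val : ℤ))
        (((x.2.2.2 - 1).val : ℤ) - ((y.2.2.2 - 1).val : ℤ)) := by
  set t : ℤ := x.1 - y.1 with ht
  set z : ℤ := x.2.1 - y.2.1 with hz
  have hx1 : (prj m x).1 - (prj m y).1 = (t : ZMod (2 * m)) := by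
    rw [ht, Int.cast_sub]
    rfl
  have hx2 : (prj m x).2.1 - (prj m y).2.1 = (z : ZMod (2 * m)) := by
    rw [hz, Int.cast_sub]
    rfl
  set w : ℤ × ℤ × ℤ → ℂ := fun p => ((2 * m * l ^ 2 : ℝ) : ℂ)⁻¹ *
    Complex.exp (Complex.I * ((Real.pi * p.1 * z / m + (mom N k (α, p.2) 2 *
      (((x.2.2.1 - 1).val : ℤ) - ((y.2.2.1 - 1).val : ℤ) : ℤ) +
      mom N k (α, p.2) 3 * (((x.2.2.2 - 1).val : ℤ) - ((y.2.2.2 - 1).val : ℤ) : ℤ)) / l : ℝ) : ℂ))
    with hw
  have hwave : ∀ p : ℤ × ℤ × ℤ, ((2 * m * l ^ 2 : ℝ) : ℂ)⁻¹ *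
      conj (wave N k l (α, p.2) y.2.2) * (ew m p.1 (z : ZMod (2 * m)) *
        wave N k l (α, p.2) x.2.2) = w p := by
    intro p
    rw [hw]
    simp only
    rw [ew_cast, mul_assoc]
    congr 1
    unfold wave
    rw [← Complex.exp_conj, map_mul, Complex.conj_I, Complex.conj_ofReal, ← Complex.exp_add,
      ← Complex.exp_add]
    congr 1
    push_cast
    ring
  have key := kr_eq hk α hα hij i j (prj m x) (prj m y)
    (fun i i' => ∑ p ∈ Finset.Ico (-(m : ℤ)) m ×ˢ Wi l, w p *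
      ((((Real.exp (-(ol (Al N k l m p.1 (α, p.2)) * t)) : ℝ) : ℂ) *
        (fac N k l m 1 p.1 (α, p.2) i * fab N k l m 1 p.1 (α, p.2) i') +
      ((Real.exp (-(ol (Al N k l m p.1 (α, p.2)) * (2 * m - t))) : ℝ) : ℂ) *
        (fac N k l m (-1) p.1 (α, p.2) i * fab N k l m (-1) p.1 (α, p.2) i')) /
      ((2 * Real.sinh (ol (Al N k l m p.1 (α, p.2))) *
        (1 - Real.exp (-(2 * m * ol (Al N k l m p.1 (α, p.2))))) : ℝ) : ℂ))) (by
    intro i i'
    rw [Gr_delta hk α hα, nbs_fam, nb_fam]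
    unfold fam
    rw [Finset.sum_apply]
    refine Finset.sum_congr rfl fun p _ => ?_
    rw [Pi.smul_apply, smul_eq_mul]
    unfold pw bs
    simp only [hx1, hx2]
    rw [NN_val p.1 (α, p.2) i i' t h1 h2, ← hwave p]
    show _ = ((2 * m * l ^ 2 : ℝ) : ℂ)⁻¹ * conj (wave N k l (α, p.2) y.2.2) * (_ *
      wave N k l (α, p.2) x.2.2)
    ring)
  rw [key]
  unfold LS
  have hite : ∀ (P : Prop) [Decidable P] (F : ℤ × ℤ × ℤ → ℂ),
      (if P then ∑ p ∈ Finset.Ico (-(m : ℤ)) m ×ˢ Wi l, F p else 0) =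
        ∑ p ∈ Finset.Ico (-(m : ℤ)) m ×ˢ Wi l, if P then F p else 0 := by
    intro P _ F
    split_ifs
    · rfl
    · simp
  simp only [hite]
  rw [← Finset.sum_sub_distrib, ← Finset.sum_sub_distrib, ← Finset.sum_add_distrib,
    Finset.sum_product, Finset.mul_sum]
  refine Finset.sum_congr rfl fun a _ => ?_
  rw [Finset.mul_sum]
  refine Finset.sum_congr rfl fun c _ => ?_
  rw [hw]
  simp only
  unfold tn
  split_ifs <;> ring

/-- **K1** -/
theorem t_K1 : S_K1 := by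
  intro N k m l _ _ _ _ hk α hα i j i' j' hij x y h1 h2
  exact K1 N k m l hk α hα i j i' j' hij x y h1 h2

end

end Pool.Agent.Run7.h885.QW
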